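import Pool.Agent.Q241.SX.C

/-!
# Predimensions on the finite sets of classes of points

A system consists of points `x`, an equivalence relation, and a set `S x` of complex numbers for each
point, whose algebraic closure depends only on the class of `x`, and a reflection of the points
which acts on the sets `S x` like complex conjugation.
-/

set_option autoImplicit false

open Matroid Set Q241.SX

namespace Pool.Agent.Q280.MS

theorem eRk_cj (X : Set ℂ) : M.eRk (cj '' X) = M.eRk X := by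
  refine le_antisymm ?_ (eRk_image_le X)
  have h := eRk_image_le (cj '' X)
  have h2 : cj '' (cj '' X) = X := by
    rw [image_image]
    simp only [cj_cj, image_id']
  rwa [h2] at h

structure Sys where
  X : Type
  r : Setoid X
  S : X → Set ℂ
  d : ℕ
  fin : ∀ x, (S x).Finite
  cl : ∀ {x y : X}, r x y → S x ⊆ M.closure (S y)
  σ : X → X
  σσ : ∀ x, σ (σ x) = x
  σr : ∀ {x y : X}, r x y → r (σ x) (σ y)
  σS : ∀ x, S (σ x) ⊆ M.closure (cj '' S x)

namespace Sys

variable (A : Sys)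

/-- the classes -/
abbrev O := Quotient A.r

/-- the class of a point -/
abbrev q (x : A.X) : A.O := Quotient.mk A.r x

/-- all numbers attached to a set of classes -/
def P (V : Set A.O) : Set ℂ := {a | ∃ x, A.q x ∈ V ∧ a ∈ A.S x}

/-- the transcendence degree -/
noncomputable def rk (V : Set A.O) : ℕ∞ := M.eRk (A.P V)

/-- the inequality fails -/
def Bad (V : Finset A.O) : Prop := A.rk (V : Set A.O) < ((A.d * V.card : ℕ) : ℕ∞)

variable {A}

theorem S_sub_P {V : Set A.O} {x : A.X} (h : A.q x ∈ V) : A.S x ⊆ A.P V := fun _ ha => ⟨x, h, ha⟩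

theorem P_mono {V W : Set A.O} (h : V ⊆ W) : A.P V ⊆ A.P W := fun _ ⟨x, hx, ha⟩ => ⟨x, h hx, ha⟩

theorem P_sub {V : Set A.O} {Y : Set ℂ} (h : ∀ v ∈ V, ∃ x, A.q x = v ∧ A.S x ⊆ M.closure Y) :
    A.P V ⊆ M.closure Y := by
  rintro a ⟨y, hy, ha⟩
  obtain ⟨x, hx, hS⟩ := h _ hy
  have h1 : A.r y x := Quotient.exact hx.symm
  exact cl_sub hS (A.cl h1 ha)

theorem P_union (V W : Set A.O) : A.P (V ∪ W) = A.P V ∪ A.P W := by
  ext a
  constructor
  · rintro ⟨x, hx | hx, ha⟩
    · exact Or.inl ⟨x, hx, ha⟩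
    · exact Or.inr ⟨x, hx, ha⟩
  · rintro (⟨x, hx, ha⟩ | ⟨x, hx, ha⟩)
    · exact ⟨x, Or.inl hx, ha⟩
    · exact ⟨x, Or.inr hx, ha⟩

theorem rk_submod (V W : Set A.O) : A.rk (V ∩ W) + A.rk (V ∪ W) ≤ A.rk V + A.rk W := by
  have h1 : A.rk (V ∩ W) ≤ M.eRk (A.P V ∩ A.P W) :=
    M.eRk_mono (subset_inter (P_mono inter_subset_left) (P_mono inter_subset_right))
  have h2 : A.rk (V ∪ W) = M.eRk (A.P V ∪ A.P W) := by rw [rk, P_union]
  rw [h2]
  exact (add_le_add h1 le_rfl).trans (M.eRk_inter_add_eRk_union_le _ _)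

open Classical in
theorem Bad.inf_or_sup {V W : Finset A.O} (hV : A.Bad V) (hW : A.Bad W) :
    A.Bad (V ∩ W) ∨ A.Bad (V ∪ W) := by
  by_contra hcon
  push Not at hcon
  obtain ⟨h1, h2⟩ := hcon
  unfold Bad at h1 h2 hV hW
  push Not at h1 h2
  rw [Finset.coe_inter] at h1
  rw [Finset.coe_union] at h2
  have h3 := rk_submod (V : Set A.O) (W : Set A.O)
  have h5 := (add_le_add h1 h2).trans h3
  have h6 := ENat.add_lt_add hV hW
  have h7 : ((A.d * (V ∩ W).card : ℕ) : ℕ∞) + ((A.d * (V ∪ W).card : ℕ) : ℕ∞) =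
      ((A.d * V.card : ℕ) : ℕ∞) + ((A.d * W.card : ℕ) : ℕ∞) := by
    have h8 := Finset.card_inter_add_card_union V W
    have : A.d * (V ∩ W).card + A.d * (V ∪ W).card = A.d * V.card + A.d * W.card := by
      rw [← mul_add, ← mul_add, h8]
    exact_mod_cast this
  rw [h7] at h5
  exact absurd (h5.trans_lt h6) (lt_irrefl _)

/-- the relative transcendence degree only decreases -/
theorem rel_mono {V W : Set A.O} (h : V ⊆ W) (hV : A.rk V ≠ ⊤) {x : A.X} {e : ℕ∞}
    (hx : M.eRk (A.P V ∪ A.S x) ≤ A.rk V + e) : M.eRk (A.P W ∪ A.S x) ≤ A.rk W + e := by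
  have h1 := M.eRk_inter_add_eRk_union_le (A.P V ∪ A.S x) (A.P W)
  have h2 : A.rk V ≤ M.eRk ((A.P V ∪ A.S x) ∩ A.P W) :=
    M.eRk_mono (subset_inter subset_union_left (P_mono h))
  have h3 : (A.P V ∪ A.S x) ∪ A.P W = A.P W ∪ A.S x := by
    have := P_mono h
    ext a
    constructor
    · rintro ((ha | ha) | ha)
      · exact Or.inl (this ha)
      · exact Or.inr ha
      · exact Or.inl ha
    · rintro (ha | ha)
      · exact Or.inr ha
      · exact Or.inl (Or.inr ha)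
  rw [h3] at h1
  have h4 : A.rk V + M.eRk (A.P W ∪ A.S x) ≤ A.rk V + (A.rk W + e) := by
    calc A.rk V + M.eRk (A.P W ∪ A.S x) ≤ M.eRk ((A.P V ∪ A.S x) ∩ A.P W) + M.eRk (A.P W ∪ A.S x) :=
          add_le_add h2 le_rfl
      _ ≤ M.eRk (A.P V ∪ A.S x) + M.eRk (A.P W) := h1
      _ ≤ (A.rk V + e) + A.rk W := add_le_add hx le_rfl
      _ = A.rk V + (A.rk W + e) := by rw [add_assoc, add_comm e]
  exact (ENat.add_le_add_iff_left hV).mp h4

open Classical in
theorem Bad.step {V : Finset A.O} (hV : A.Bad V) (x : A.X)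
    (hx : M.eRk (A.P V ∪ A.S x) ≤ A.rk V + A.d) : A.Bad (insert (A.q x) V) := by
  by_cases h : A.q x ∈ V
  · rwa [Finset.insert_eq_of_mem h]
  · unfold Bad
    have h1 : A.rk ((insert (A.q x) V : Finset A.O) : Set A.O) ≤ M.eRk (A.P V ∪ A.S x) := by
      rw [← M.eRk_closure_eq (A.P V ∪ A.S x)]
      refine M.eRk_mono (P_sub fun v hv => ?_)
      rw [Finset.mem_coe, Finset.mem_insert] at hv
      rcases hv with rfl | hv
      · exact ⟨x, rfl, subset_union_right.trans (subset_cl _)⟩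
      · obtain ⟨y, rfl⟩ := Quotient.exists_rep v
        exact ⟨y, rfl, (S_sub_P hv).trans (subset_union_left.trans (subset_cl _))⟩
    rw [Finset.card_insert_of_notMem h]
    have h2 : ((A.d * (V.card + 1) : ℕ) : ℕ∞) = ((A.d * V.card : ℕ) : ℕ∞) + (A.d : ℕ∞) := by
      rw [mul_add, mul_one]
      push_cast
      rfl
    rw [h2]
    refine (h1.trans hx).trans_lt ?_
    exact (ENat.add_lt_add_iff_right (by simp)).mpr hV

theorem Bad.ne_top {V : Finset A.O} (hV : A.Bad V) : A.rk (V : Set A.O) ≠ ⊤ :=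
  ne_top_of_lt hV

open Classical in
/-- adding several points -/
theorem Bad.absorb {V : Finset A.O} (hV : A.Bad V) (U : Finset A.X)
    (hU : ∀ x ∈ U, M.eRk (A.P V ∪ A.S x) ≤ A.rk V + A.d) : A.Bad (V ∪ U.image A.q) := by
  induction U using Finset.induction_on with
  | empty => simpa using hV
  | insert a U ha ih =>
    have h1 := ih fun x hx => hU x (Finset.mem_insert_of_mem hx)
    have h2 : M.eRk (A.P ((V ∪ U.image A.q : Finset A.O) : Set A.O) ∪ A.S a) ≤
        A.rk ((V ∪ U.image A.q : Finset A.O) : Set A.O) + A.d :=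
      rel_mono (by simp) hV.ne_top (hU a (Finset.mem_insert_self _ _))
    have h3 := h1.step a h2
    rwa [← Finset.union_insert, ← Finset.image_insert] at h3

/-- the reflection of the classes -/
def τ : A.O → A.O := Quotient.map A.σ fun _ _ h => A.σr h

theorem τ_q (x : A.X) : τ (A.q x) = A.q (A.σ x) := rfl

theorem ττ (v : A.O) : τ (τ v) = v := by
  obtain ⟨x, rfl⟩ := Quotient.exists_rep v
  exact (congrArg A.q (A.σσ x))

theorem τ_inj : Function.Injective (τ (A := A)) := fun a b h => by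
  have := congrArg τ h
  rwa [ττ, ττ] at this

theorem rk_τ_le (V : Set A.O) : A.rk (τ '' V) ≤ A.rk V := by
  rw [rk, rk, ← eRk_cj (A.P V), ← M.eRk_closure_eq (cj '' A.P V)]
  refine M.eRk_mono (P_sub ?_)
  rintro _ ⟨v, hv, rfl⟩
  obtain ⟨x, rfl⟩ := Quotient.exists_rep v
  refine ⟨A.σ x, rfl, (A.σS x).trans (cl_mono (image_mono (S_sub_P hv)))⟩

open Classical in
theorem Bad.image {V : Finset A.O} (hV : A.Bad V) : A.Bad (V.image τ) := by
  unfold Bad
  rw [Finset.card_image_of_injective _ τ_inj, Finset.coe_image]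
  exact (rk_τ_le _).trans_lt hV

open Classical in
theorem Bad.exists_stable {V : Finset A.O} (hV : A.Bad V) (L : Finset A.O) (hL : L ⊆ V)
    (hLτ : ∀ l ∈ L, τ l ∈ L) : ∃ W : Finset A.O, A.Bad W ∧ (∀ w ∈ W, τ w ∈ W) ∧ L ⊆ W := by
  have hL2 : L ⊆ V.image τ := by
    intro l hl
    rw [Finset.mem_image]
    exact ⟨τ l, hL (hLτ l hl), ττ l⟩
  rcases hV.inf_or_sup hV.image with h | h
  · refine ⟨_, h, ?_, Finset.subset_inter hL hL2⟩
    intro w hw
    rw [Finset.mem_inter, Finset.mem_image] at hw ⊢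
    obtain ⟨h1, v, hv, rfl⟩ := hw
    exact ⟨by rwa [ττ], ⟨τ v, h1, rfl⟩⟩
  · refine ⟨_, h, ?_, hL.trans Finset.subset_union_left⟩
    intro w hw
    rw [Finset.mem_union, Finset.mem_image] at hw ⊢
    rcases hw with hw | ⟨v, hv, rfl⟩
    · exact Or.inr ⟨w, hw, rfl⟩
    · exact Or.inl (by rwa [ττ])

/-- points obtained by finitely many steps, each with a relation -/
inductive CF : A.X → Prop
  | intro (F : Finset A.X) (x : A.X) (hF : ∀ y ∈ F, CF y)
      (hx : M.eRk ((⋃ y ∈ F, A.S y) ∪ A.S x) ≤ M.eRk (⋃ y ∈ F, A.S y) + A.d) : CF x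

open Classical in
theorem rk_image (F : Finset A.X) (e : ℕ∞) (x : A.X)
    (hx : M.eRk ((⋃ y ∈ F, A.S y) ∪ A.S x) ≤ M.eRk (⋃ y ∈ F, A.S y) + e) :
    M.eRk (A.P (F.image A.q : Finset A.O) ∪ A.S x) ≤ A.rk (F.image A.q : Finset A.O) + e := by
  have h1 : A.P (F.image A.q : Finset A.O) ⊆ M.closure (⋃ y ∈ F, A.S y) := by
    refine P_sub fun v hv => ?_
    rw [Finset.mem_coe, Finset.mem_image] at hv
    obtain ⟨y, hy, rfl⟩ := hv
    exact ⟨y, rfl, (subset_biUnion_of_mem (u := fun y => A.S y) hy).trans (subset_cl _)⟩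
  have h2 : (⋃ y ∈ F, A.S y) ⊆ A.P (F.image A.q : Finset A.O) := by
    refine iUnion₂_subset fun y hy => S_sub_P ?_
    rw [Finset.mem_coe, Finset.mem_image]
    exact ⟨y, hy, rfl⟩
  have h3 : M.eRk (A.P (F.image A.q : Finset A.O) ∪ A.S x) ≤ M.eRk ((⋃ y ∈ F, A.S y) ∪ A.S x) := by
    rw [← M.eRk_closure_eq ((⋃ y ∈ F, A.S y) ∪ A.S x)]
    refine M.eRk_mono (union_subset (h1.trans (cl_mono subset_union_left)) ?_)
    exact subset_union_right.trans (subset_cl _)
  exact (h3.trans hx).trans (add_le_add (M.eRk_mono h2) le_rfl)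

open Classical in
theorem rk_ne_top (F : Finset A.X) : A.rk (F.image A.q : Finset A.O) ≠ ⊤ := by
  have h1 : A.P (F.image A.q : Finset A.O) ⊆ M.closure (⋃ y ∈ F, A.S y) := by
    refine P_sub fun v hv => ?_
    rw [Finset.mem_coe, Finset.mem_image] at hv
    obtain ⟨y, hy, rfl⟩ := hv
    exact ⟨y, rfl, (subset_biUnion_of_mem (u := fun y => A.S y) hy).trans (subset_cl _)⟩
  have h2 : A.rk (F.image A.q : Finset A.O) ≤ M.eRk (⋃ y ∈ F, A.S y) := by
    rw [← M.eRk_closure_eq (⋃ y ∈ F, A.S y)]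
    exact M.eRk_mono h1
  have h3 : (⋃ y ∈ F, A.S y).Finite := F.finite_toSet.biUnion fun y _ => A.fin y
  exact ne_top_of_le_ne_top h3.encard_lt_top.ne (h2.trans (M.eRk_le_encard _))

open Classical in
theorem Bad.absorb_CF {x : A.X} (hx : A.CF x) :
    ∀ V : Finset A.O, A.Bad V → ∃ W : Finset A.O, V ⊆ W ∧ A.Bad W ∧ A.q x ∈ W := by
  induction hx with
  | intro F x hF hx ih =>
    intro V hV
    have key : ∀ E : Finset A.X, (∀ y ∈ E, y ∈ F) → ∃ W : Finset A.O, V ⊆ W ∧ A.Bad W ∧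
        E.image A.q ⊆ W := by
      intro E
      induction E using Finset.induction_on with
      | empty => intro _; exact ⟨V, le_rfl, hV, by simp⟩
      | insert a E _ ihE =>
        intro hE
        obtain ⟨W, h1, h2, h3⟩ := ihE fun y hy => hE y (Finset.mem_insert_of_mem hy)
        obtain ⟨W', h1', h2', h3'⟩ := ih a (hE a (Finset.mem_insert_self _ _)) W h2
        refine ⟨W', h1.trans h1', h2', ?_⟩
        rw [Finset.image_insert]
        exact Finset.insert_subset h3' (h3.trans h1')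
    obtain ⟨W, h1, h2, h3⟩ := key F fun y hy => hy
    refine ⟨insert (A.q x) W, h1.trans (Finset.subset_insert _ _), h2.step x ?_,
      Finset.mem_insert_self _ _⟩
    have h4 : ((F.image A.q : Finset A.O) : Set A.O) ⊆ (W : Set A.O) := Finset.coe_subset.mpr h3
    exact rel_mono h4 (rk_ne_top F) (rk_image F _ x hx)

open Classical in
theorem Bad.absorb_finset (L : Finset A.X) (hL : ∀ x ∈ L, A.CF x) (V : Finset A.O)
    (hV : A.Bad V) : ∃ W : Finset A.O, V ⊆ W ∧ A.Bad W ∧ L.image A.q ⊆ W := by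
  induction L using Finset.induction_on with
  | empty => exact ⟨V, le_rfl, hV, by simp⟩
  | insert a E _ ihE =>
    obtain ⟨W, h1, h2, h3⟩ := ihE fun x hx => hL x (Finset.mem_insert_of_mem hx)
    obtain ⟨W', h1', h2', h3'⟩ := Bad.absorb_CF (hL a (Finset.mem_insert_self _ _)) W h2
    refine ⟨W', h1.trans h1', h2', ?_⟩
    rw [Finset.image_insert]
    exact Finset.insert_subset h3' (h3.trans h1')

open Classical in
/-- there are failures of many cardinalities -/
theorem Bad.enlarge (hsup : ∀ V : Finset A.O, ∃ x : A.X, A.q x ∉ V ∧ τ (A.q x) = A.q x ∧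
      M.eRk (A.S x) ≤ A.d) {V : Finset A.O} (hV : A.Bad V) (hst : ∀ w ∈ V, τ w ∈ V) (m : ℕ)
    (hm : V.card ≤ m) :
    ∃ W : Finset A.O, A.Bad W ∧ V ⊆ W ∧ (∀ w ∈ W, τ w ∈ W) ∧ W.card = m := by
  induction m, hm using Nat.le_induction with
  | base => exact ⟨V, hV, le_rfl, hst, rfl⟩
  | succ m hm ih =>
    obtain ⟨T, h1, h2, h3, h4⟩ := ih
    obtain ⟨x, hx1, hx2, hx3⟩ := hsup T
    refine ⟨insert (A.q x) T, h1.step x ?_, h2.trans (Finset.subset_insert _ _), ?_, ?_⟩
    · exact (M.eRk_union_le_eRk_add_eRk _ _).trans (add_le_add le_rfl hx3)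
    · intro w hw
      rw [Finset.mem_insert] at hw ⊢
      rcases hw with rfl | hw
      · exact Or.inl hx2
      · exact Or.inr (h3 w hw)
    · rw [Finset.card_insert_of_notMem hx1, h4]

open Classical in
/-- the combined statement -/
theorem Bad.exists_good (hsup : ∀ V : Finset A.O, ∃ x : A.X, A.q x ∉ V ∧ τ (A.q x) = A.q x ∧
      M.eRk (A.S x) ≤ A.d) {V : Finset A.O} (hV : A.Bad V) (L : Finset A.X)
    (hL : ∀ x ∈ L, A.CF x) (hLσ : ∀ x ∈ L, A.σ x ∈ L) (N : Set ℕ) (hN : N.Infinite) :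
    ∃ W : Finset A.O, A.Bad W ∧ (∀ w ∈ W, τ w ∈ W) ∧ L.image A.q ⊆ W ∧ W.card ∈ N := by
  obtain ⟨W, _, h2, h3⟩ := Bad.absorb_finset L hL V hV
  obtain ⟨T, h4, h5, h6⟩ := h2.exists_stable (L.image A.q) h3 (by
    intro l hl
    rw [Finset.mem_image] at hl ⊢
    obtain ⟨x, hx, rfl⟩ := hl
    exact ⟨A.σ x, hLσ x hx, rfl⟩)
  obtain ⟨n, hnN, hn⟩ := hN.exists_gt T.card
  obtain ⟨U, h7, h8, h9, h10⟩ := h4.enlarge hsup h5 n hn.le
  exact ⟨U, h7, h9, h6.trans h8, by rwa [h10]⟩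

/-- representatives of a finite set of classes in a given set of points -/
theorem exists_reps (V : Finset A.O) (U : Set A.X) (hU : ∀ v ∈ V, ∃ x ∈ U, A.q x = v) :
    ∃ u : Fin V.card → A.X, (∀ k, u k ∈ U) ∧ (∀ k, A.q (u k) ∈ V) ∧
      (∀ v ∈ V, ∃ k, A.q (u k) = v) ∧ ∀ i k, A.q (u i) = A.q (u k) → i = k := by
  choose f hf1 hf2 using hU
  let e := V.equivFin
  refine ⟨fun k => f (e.symm k).1 (e.symm k).2, fun k => hf1 _ _, fun k => ?_, fun v hv => ?_, ?_⟩
  · rw [hf2]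
    exact (e.symm k).2
  · refine ⟨e ⟨v, hv⟩, ?_⟩
    rw [hf2, Equiv.symm_apply_apply]
  · intro i k h
    rw [hf2, hf2] at h
    exact e.symm.injective (Subtype.ext h)

open Classical in
theorem card_image {n : ℕ} (z : Fin n → A.X) (hz : ∀ i k, A.q (z i) = A.q (z k) → i = k) :
    (Finset.univ.image fun i => A.q (z i)).card = n := by
  rw [Finset.card_image_of_injective _ (fun i k h => hz i k h), Finset.card_univ, Fintype.card_fin]

end Sys

end Pool.Agent.Q280.MS
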