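import Pool.Agent.Q280.MS.J
import Pool.Agent.Q280.MS.Sys

/-!
# Points of the upper half-plane: equivalence under `GL₂⁺(ℚ)`, reflection, closures
-/

set_option autoImplicit false

open Matroid Set Q241.SX

namespace Pool.Agent.Q280.MS

/-- `z` is a CM point. -/
def CM (z : ℂ) : Prop :=
  ∃ a b c : ℤ, (a ≠ 0 ∨ b ≠ 0 ∨ c ≠ 0) ∧ (a : ℂ) * z ^ 2 + (b : ℂ) * z + (c : ℂ) = 0

/-- `w = (a z + b) / (c z + d)` for a rational matrix of positive determinant. -/
def Equivalent (z w : ℂ) : Prop :=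
  ∃ a b c d : ℚ, 0 < a * d - b * c ∧ w * ((c : ℂ) * z + (d : ℂ)) = (a : ℂ) * z + (b : ℂ)

/-- The reflection `z ↦ - conj z` of the upper half-plane. -/
noncomputable def refl (z : ℂ) : ℂ := -(starRingEnd ℂ) z

theorem cl_poly {X : Set ℂ} {a : ℂ} (p : Polynomial ℂ) (hp : p ≠ 0) (hc : ∀ i, p.coeff i ∈ M.closure X)
    (h0 : p.eval a = 0) : a ∈ M.closure X := by
  have h1 : a ∈ M.closure (M.closure X) := by
    rw [mem_cl]
    obtain ⟨q, hq⟩ : ∃ q : Polynomial (Algebra.adjoin ℚ (M.closure X)),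
        q.map (algebraMap _ ℂ) = p := by
      have : p ∈ Polynomial.lifts (algebraMap (Algebra.adjoin ℚ (M.closure X)) ℂ) := by
        rw [Polynomial.lifts_iff_coeff_lifts]
        intro n
        exact ⟨⟨p.coeff n, Algebra.subset_adjoin (hc n)⟩, rfl⟩
      exact (Polynomial.mem_lifts _).mp this
    refine ⟨q, ?_, ?_⟩
    · rintro rfl
      exact hp (by rw [← hq, Polynomial.map_zero])
    · rw [Polynomial.aeval_def, ← Polynomial.eval_map, hq]
      exact h0
  rwa [M.closure_closure] at h1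

theorem cl_of_isIntegral {X : Set ℂ} {x a : ℂ} (hx : x ∈ X) (h : IsIntegral (Algebra.adjoin ℤ {x}) a) :
    a ∈ M.closure X := by
  obtain ⟨p, hp, hp0⟩ := h
  refine cl_poly (p.map (algebraMap _ ℂ)) (hp.map _).ne_zero (fun i => ?_) ?_
  · rw [Polynomial.coeff_map]
    have hle : ∀ y ∈ Algebra.adjoin ℤ {x}, y ∈ M.closure X := by
      intro y hy
      induction hy using Algebra.adjoin_induction with
      | mem y hy => rw [mem_singleton_iff.mp hy]; exact subset_cl X hx
      | algebraMap n =>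
        rw [eq_intCast]
        simpa using cl_rat (X := X) (n : ℚ)
      | add _ _ _ _ h1 h2 => exact cl_add h1 h2
      | mul _ _ _ _ h1 h2 => exact cl_mul h1 h2
    exact hle _ (p.coeff i).2
  · rw [Polynomial.eval_map]
    exact hp0

theorem J_refl (z : ℂ) : J (refl z) = (starRingEnd ℂ) (J z) := J_neg_conj z

theorem refl_im (z : ℂ) : (refl z).im = z.im := by simp [refl]

theorem refl_refl (z : ℂ) : refl (refl z) = z := by simp [refl]

theorem CM.of_refl {z : ℂ} (h : CM (refl z)) : CM z := by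
  obtain ⟨a, b, c, h0, h1⟩ := h
  refine ⟨a, -b, c, by simpa using h0, ?_⟩
  have h2 := congrArg (starRingEnd ℂ) h1
  simp only [MS.refl, map_add, map_mul, map_pow, map_neg, map_intCast, map_zero,
    Complex.conj_conj] at h2
  push_cast
  linear_combination h2

theorem den_ne {z : ℂ} (hz : 0 < z.im) {a b c d : ℚ} (h : 0 < a * d - b * c) :
    (c : ℂ) * z + d ≠ 0 := by
  intro h0
  have h1 := congrArg Complex.im h0
  have h2 := congrArg Complex.re h0
  simp only [Complex.add_im, Complex.mul_im, Complex.ratCast_re, Complex.ratCast_im, zero_mul,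
    add_zero, Complex.zero_im] at h1
  have h3 : (c : ℝ) = 0 := by
    rcases mul_eq_zero.mp h1 with h4 | h4
    · exact h4
    · exact absurd h4 hz.ne'
  have hc : c = 0 := by exact_mod_cast h3
  subst hc
  simp only [Rat.cast_zero, zero_mul, zero_add, Complex.ratCast_re, Complex.zero_re] at h2
  have hd : d = 0 := by exact_mod_cast h2
  subst hd
  simp at h

theorem equivalent_refl (z : ℂ) : Equivalent z z := ⟨1, 0, 0, 1, by norm_num, by simp⟩

theorem Equivalent.symm {z w : ℂ} (h : Equivalent z w) : Equivalent w z := by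
  obtain ⟨a, b, c, d, h1, h2⟩ := h
  refine ⟨d, -b, -c, a, by linarith, ?_⟩
  push_cast
  linear_combination -h2

theorem Equivalent.trans {z w u : ℂ} (h : Equivalent z w) (h' : Equivalent w u) :
    Equivalent z u := by
  obtain ⟨a, b, c, d, h1, h2⟩ := h
  obtain ⟨a', b', c', d', h3, h4⟩ := h'
  refine ⟨a' * a + b' * c, a' * b + b' * d, c' * a + d' * c, c' * b + d' * d, ?_, ?_⟩
  · have : (a' * a + b' * c) * (c' * b + d' * d) - (a' * b + b' * d) * (c' * a + d' * c) =
      (a * d - b * c) * (a' * d' - b' * c') := by ring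
    rw [this]
    exact mul_pos h1 h3
  · push_cast
    linear_combination (c * z + d) * h4 - (c' * u - a') * h2

theorem Equivalent.refl_map {z w : ℂ} (h : Equivalent z w) : Equivalent (refl z) (refl w) := by
  obtain ⟨a, b, c, d, h1, h2⟩ := h
  refine ⟨a, -b, -c, d, by linarith, ?_⟩
  have h3 := congrArg (starRingEnd ℂ) h2
  simp only [map_add, map_mul, map_ratCast] at h3
  simp only [refl]
  push_cast
  linear_combination -h3

theorem cl_single {X : Set ℂ} {a : ℂ} (h : a ∈ X) : a ∈ M.closure X := subset_cl X h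

theorem Equivalent.mem_cl {z w : ℂ} (hz : 0 < z.im) (h : Equivalent z w) : w ∈ M.closure {z} := by
  obtain ⟨a, b, c, d, h1, h2⟩ := h
  have h3 := den_ne hz h1
  have h4 : w = ((a : ℂ) * z + b) * ((c : ℂ) * z + d)⁻¹ := by
    rw [← h2, mul_assoc, mul_inv_cancel₀ h3, mul_one]
  have hz' : z ∈ M.closure {z} := cl_single rfl
  rw [h4]
  exact cl_mul (cl_add (cl_mul (cl_rat a) hz') (cl_rat b))
    (cl_inv (cl_add (cl_mul (cl_rat c) hz') (cl_rat d)))

theorem Equivalent.J_mem_cl {z w : ℂ} (hz : 0 < z.im) (hw : 0 < w.im) (h : Equivalent z w) :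
    J w ∈ M.closure {J z} := by
  obtain ⟨a, b, c, d, h1, h2⟩ := h
  have key : ∃ a' b' c' d' : ℤ, 0 < a' * d' - b' * c' ∧ w * ((c' : ℂ) * z + d') = a' * z + b' := by
    obtain ⟨D, hD⟩ : ∃ D : ℤ, D = a.den * b.den * c.den * d.den := ⟨_, rfl⟩
    have hD0 : (D : ℚ) ≠ 0 := by
      rw [hD]; push_cast
      have h1 := a.den_ne_zero; have h2 := b.den_ne_zero
      have h3 := c.den_ne_zero; have h4 := d.den_ne_zero
      positivity
    have ha : ∃ a' : ℤ, (a' : ℚ) = D * a := ⟨a.num * (b.den * c.den * d.den), by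
      rw [hD]; push_cast
      have := Rat.den_mul_eq_num a
      linear_combination -((b.den : ℚ) * c.den * d.den) * this⟩
    have hb : ∃ a' : ℤ, (a' : ℚ) = D * b := ⟨b.num * (a.den * c.den * d.den), by
      rw [hD]; push_cast
      have := Rat.den_mul_eq_num b
      linear_combination -((a.den : ℚ) * c.den * d.den) * this⟩
    have hc : ∃ a' : ℤ, (a' : ℚ) = D * c := ⟨c.num * (a.den * b.den * d.den), by
      rw [hD]; push_cast
      have := Rat.den_mul_eq_num c
      linear_combination -((a.den : ℚ) * b.den * d.den) * this⟩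
    have hd : ∃ a' : ℤ, (a' : ℚ) = D * d := ⟨d.num * (a.den * b.den * c.den), by
      rw [hD]; push_cast
      have := Rat.den_mul_eq_num d
      linear_combination -((a.den : ℚ) * b.den * c.den) * this⟩
    obtain ⟨a', ha'⟩ := ha
    obtain ⟨b', hb'⟩ := hb
    obtain ⟨c', hc'⟩ := hc
    obtain ⟨d', hd'⟩ := hd
    refine ⟨a', b', c', d', ?_, ?_⟩
    · have : ((a' * d' - b' * c' : ℤ) : ℚ) = D ^ 2 * (a * d - b * c) := by
        push_cast
        rw [ha', hb', hc', hd']
        ring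
      have h5 : (0 : ℚ) < ((a' * d' - b' * c' : ℤ) : ℚ) := by
        rw [this]
        positivity
      exact_mod_cast h5
    · have ha2 : (a' : ℂ) = D * a := by exact_mod_cast congrArg (fun q : ℚ => (q : ℂ)) ha'
      have hb2 : (b' : ℂ) = D * b := by exact_mod_cast congrArg (fun q : ℚ => (q : ℂ)) hb'
      have hc2 : (c' : ℂ) = D * c := by exact_mod_cast congrArg (fun q : ℚ => (q : ℂ)) hc'
      have hd2 : (d' : ℂ) = D * d := by exact_mod_cast congrArg (fun q : ℚ => (q : ℂ)) hd'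
      rw [ha2, hb2, hc2, hd2]
      linear_combination (D : ℂ) * h2
  obtain ⟨a', b', c', d', h3, h4⟩ := key
  have h5 := H294ZP.isogenous_integral ⟨z, hz⟩ ⟨w, hw⟩ a' b' c' d' h3 h4
  rw [← J_eq, ← J_eq] at h5
  exact cl_of_isIntegral (mem_singleton _) h5

theorem CM.J_mem_cl {z : ℂ} (hz : 0 < z.im) (h : CM z) (X : Set ℂ) : J z ∈ M.closure X := by
  obtain ⟨a, b, c, h0, h1⟩ := h
  have ha : a ≠ 0 := by
    rintro rfl
    have h2 := congrArg Complex.im h1
    have h3 := congrArg Complex.re h1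
    simp only [Int.cast_zero, zero_mul, zero_add, Complex.add_im, Complex.mul_im, Complex.intCast_re,
      Complex.intCast_im, add_zero, Complex.zero_im] at h2
    have hb : (b : ℝ) = 0 := by
      rcases mul_eq_zero.mp h2 with h4 | h4
      · exact h4
      · exact absurd h4 hz.ne'
    have hb' : b = 0 := by exact_mod_cast hb
    subst hb'
    simp only [Int.cast_zero, zero_mul, zero_add, Complex.intCast_re, Complex.zero_re] at h3
    have hc' : c = 0 := by exact_mod_cast h3
    subst hc'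
    simp at h0
  have h5 := H294ZP.singular_modulus_integral ⟨z, hz⟩ ⟨a, b, c, ha, h1⟩
  rw [← J_eq] at h5
  apply cl_alg
  have h6 : IsAlgebraic ℤ (J z) := h5.isAlgebraic
  exact h6.extendScalars (algebraMap ℤ ℚ).injective_int

theorem cl_cj {X : Set ℂ} {a : ℂ} (h : a ∈ M.closure X) : cj a ∈ M.closure (cj '' X) := by
  rw [mem_cl] at h ⊢
  have hle : ∀ y ∈ Algebra.adjoin ℚ X, cj y ∈ Algebra.adjoin ℚ (cj '' X) := by
    intro y hy
    induction hy using Algebra.adjoin_induction with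
    | mem y hy => exact Algebra.subset_adjoin ⟨y, hy, rfl⟩
    | algebraMap n => rw [AlgEquiv.commutes]; exact Subalgebra.algebraMap_mem _ _
    | add _ _ _ _ h1 h2 => rw [map_add]; exact add_mem h1 h2
    | mul _ _ _ _ h1 h2 => rw [map_mul]; exact mul_mem h1 h2
  let f : Algebra.adjoin ℚ X →+* Algebra.adjoin ℚ (cj '' X) :=
    { toFun := fun y => ⟨cj y.1, hle _ y.2⟩
      map_one' := Subtype.ext (map_one cj)
      map_mul' := fun _ _ => Subtype.ext (map_mul cj _ _)
      map_zero' := Subtype.ext (map_zero cj)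
      map_add' := fun _ _ => Subtype.ext (map_add cj _ _) }
  have hf : Function.Injective f := fun x y hxy =>
    Subtype.ext (cj.injective (congrArg Subtype.val hxy))
  obtain ⟨p, hp0, hp⟩ := h
  refine ⟨p.map f, (Polynomial.map_ne_zero_iff hf).mpr hp0, ?_⟩
  rw [Polynomial.aeval_def] at hp ⊢
  rw [Polynomial.eval₂_map]
  have h1 := Polynomial.hom_eval₂ p (algebraMap (Algebra.adjoin ℚ X) ℂ) (cj : ℂ →+* ℂ) a
  rw [hp, map_zero] at h1
  have h2 : (algebraMap (Algebra.adjoin ℚ (cj '' X)) ℂ).comp f =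
      (cj : ℂ →+* ℂ).comp (algebraMap (Algebra.adjoin ℚ X) ℂ) := RingHom.ext fun y => rfl
  rw [h2]
  exact h1.symm


theorem conj_mem_cl {X : Set ℂ} {z : ℂ} (h : refl z ∈ M.closure X) : (starRingEnd ℂ) z ∈ M.closure X := by
  have := cl_neg h
  rwa [refl, neg_neg] at this

theorem re_mem_cl {X : Set ℂ} {z : ℂ} (h : z ∈ M.closure X) (h' : (starRingEnd ℂ) z ∈ M.closure X) :
    ((z.re : ℝ) : ℂ) ∈ M.closure X := by
  have h3 : ((z.re : ℝ) : ℂ) = (z + (starRingEnd ℂ) z) * 2⁻¹ := by
    rw [Complex.add_conj]; push_cast; ring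
  have h2 : ((2 : ℂ)⁻¹) ∈ M.closure X := by simpa using cl_rat (X := X) (2⁻¹)
  rw [h3]
  exact cl_mul (cl_add h h') h2

theorem im_mem_cl {X : Set ℂ} {z : ℂ} (h : z ∈ M.closure X) (h' : (starRingEnd ℂ) z ∈ M.closure X) :
    ((z.im : ℝ) : ℂ) ∈ M.closure X := by
  have h3 : ((z.im : ℝ) : ℂ) = -((z + -(starRingEnd ℂ) z) * 2⁻¹ * Complex.I) := by
    rw [← sub_eq_add_neg, Complex.sub_conj]
    push_cast
    have := Complex.I_mul_I
    linear_combination (z.im : ℂ) * this
  have h2 : ((2 : ℂ)⁻¹) ∈ M.closure X := by simpa using cl_rat (X := X) (2⁻¹)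
  rw [h3]
  exact cl_neg (cl_mul (cl_mul (cl_add h (cl_neg h')) h2) cl_I)

theorem mem_cl_re_im {X : Set ℂ} {z : ℂ} (h : ((z.re : ℝ) : ℂ) ∈ M.closure X)
    (h' : ((z.im : ℝ) : ℂ) ∈ M.closure X) : z ∈ M.closure X ∧ (starRingEnd ℂ) z ∈ M.closure X := by
  constructor
  · rw [← Complex.re_add_im z]
    exact cl_add h (cl_mul h' cl_I)
  · have : (starRingEnd ℂ) z = (z.re : ℂ) + -((z.im : ℂ) * Complex.I) := by
      apply Complex.ext <;> simp
    rw [this]
    exact cl_add h (cl_neg (cl_mul h' cl_I))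

/-! ### Many algebraic points on the imaginary axis -/

/-- the degree of a number -/
noncomputable def dg (z : ℂ) : ℕ := Module.finrank ℚ (IntermediateField.adjoin ℚ {z})

theorem Equivalent.adjoin_le {z w : ℂ} (hz : 0 < z.im) (h : Equivalent z w) :
    IntermediateField.adjoin ℚ {w} ≤ IntermediateField.adjoin ℚ {z} := by
  rw [IntermediateField.adjoin_simple_le_iff]
  obtain ⟨a, b, c, d, h1, h2⟩ := h
  have h3 := den_ne hz h1
  have h4 : w = ((a : ℂ) * z + b) * ((c : ℂ) * z + d)⁻¹ := by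
    rw [← h2, mul_assoc, mul_inv_cancel₀ h3, mul_one]
  have hz' : z ∈ IntermediateField.adjoin ℚ {z} := IntermediateField.mem_adjoin_simple_self ℚ z
  have hr : ∀ q : ℚ, (q : ℂ) ∈ IntermediateField.adjoin ℚ {z} := fun q => by
    have := (IntermediateField.adjoin ℚ {z}).algebraMap_mem q
    simpa using this
  rw [h4]
  exact mul_mem (add_mem (mul_mem (hr a) hz') (hr b)) (inv_mem (add_mem (mul_mem (hr c) hz') (hr d)))

theorem Equivalent.dg_eq {z w : ℂ} (hz : 0 < z.im) (hw : 0 < w.im) (h : Equivalent z w) :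
    dg z = dg w := by
  rw [dg, dg, le_antisymm (h.adjoin_le hz) (h.symm.adjoin_le hw)]

/-- for every bound there is an algebraic point `x = i a` of larger degree -/
theorem exists_point (B : ℕ) : ∃ x : ℂ, 0 < x.im ∧ x.re = 0 ∧ IsAlgebraic ℚ x ∧ ¬ CM x ∧ B < dg x := by
  obtain ⟨p, hp1, hp⟩ := Nat.exists_infinite_primes (B + 3)
  have hp0 : p ≠ 0 := hp.ne_zero
  obtain ⟨b, hb⟩ : ∃ b : ℝ, b = (2 : ℝ) ^ ((p : ℝ)⁻¹) := ⟨_, rfl⟩
  have hbp : b ^ p = 2 := by rw [hb]; exact Real.rpow_inv_natCast_pow (by norm_num) hp0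
  have hb0 : 0 < b := by rw [hb]; positivity
  have hirr : Irreducible (Polynomial.X ^ p - Polynomial.C (2 : ℚ)) := by
    apply X_pow_sub_C_irreducible_of_prime hp
    intro b hb
    have h2 : Fact (Nat.Prime 2) := ⟨Nat.prime_two⟩
    have hb0 : b ≠ 0 := by
      rintro rfl
      rw [zero_pow hp0] at hb
      norm_num at hb
    have h3 := congrArg (padicValRat 2) hb
    rw [padicValRat.pow] at h3
    have h4 : padicValRat 2 (2 : ℚ) = 1 := by
      have := padicValRat.self (p := 2) (by norm_num)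
      simpa using this
    rw [h4] at h3
    have h5 : (p : ℤ) ∣ 1 := ⟨_, h3.symm⟩
    have h6 : (p : ℤ) ≤ 1 := Int.le_of_dvd one_pos h5
    have := hp.two_le
    omega
  have hbC : ((b : ℂ)) ^ p = 2 := by exact_mod_cast hbp
  have hmin : minpoly ℚ (b : ℂ) = Polynomial.X ^ p - Polynomial.C (2 : ℚ) := by
    symm
    apply minpoly.eq_of_irreducible_of_monic hirr
    · simp [hbC]
    · exact Polynomial.monic_X_pow_sub_C _ hp0
  have hbalg : IsAlgebraic ℚ (b : ℂ) := by
    refine ⟨Polynomial.X ^ p - Polynomial.C (2 : ℚ), hirr.ne_zero, ?_⟩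
    simp [hbC]
  obtain ⟨x, hx⟩ : ∃ x : ℂ, x = (Real.sqrt b : ℂ) * Complex.I := ⟨_, rfl⟩
  have hx2 : x ^ 2 = -(b : ℂ) := by
    have h1 : ((Real.sqrt b : ℝ) : ℂ) ^ 2 = b := by
      rw [← Complex.ofReal_pow, Real.sq_sqrt hb0.le]
    rw [hx, mul_pow, h1, Complex.I_sq]
    ring
  have hxalg : IsAlgebraic ℚ x := by
    apply IsAlgebraic.of_pow (n := 2) (by norm_num)
    rw [hx2]
    exact hbalg.neg
  have hle : IntermediateField.adjoin ℚ {(b : ℂ)} ≤ IntermediateField.adjoin ℚ {x} := by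
    rw [IntermediateField.adjoin_simple_le_iff]
    have : (b : ℂ) = -(x ^ 2) := by rw [hx2, neg_neg]
    rw [this]
    exact neg_mem (pow_mem (IntermediateField.mem_adjoin_simple_self ℚ x) 2)
  have hfd : FiniteDimensional ℚ (IntermediateField.adjoin ℚ {x}) :=
    IntermediateField.adjoin.finiteDimensional hxalg.isIntegral
  have hdg : p ≤ dg x := by
    have h1 : dg (b : ℂ) = p := by
      rw [dg, IntermediateField.adjoin.finrank hbalg.isIntegral, hmin,
        Polynomial.natDegree_X_pow_sub_C]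
    rw [← h1]
    exact IntermediateField.finrank_le_of_le_right hle
  refine ⟨x, ?_, ?_, hxalg, ?_, by omega⟩
  · rw [hx]; simp; exact hb0
  · rw [hx]; simp
  · rintro ⟨a, b', c, h0, h1⟩
    have h2 : dg x ≤ 2 := by
      rw [dg, IntermediateField.adjoin.finrank hxalg.isIntegral]
      obtain ⟨α, hα⟩ : ∃ α : ℚ, α = a := ⟨_, rfl⟩
      obtain ⟨β, hβ⟩ : ∃ β : ℚ, β = b' := ⟨_, rfl⟩
      obtain ⟨γ, hγ⟩ : ∃ γ : ℚ, γ = c := ⟨_, rfl⟩
      obtain ⟨P, hP⟩ : ∃ P : Polynomial ℚ, P = Polynomial.C α * Polynomial.X ^ 2 +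
        Polynomial.C β * Polynomial.X + Polynomial.C γ := ⟨_, rfl⟩
      have hP0 : P ≠ 0 := by
        intro h
        rw [hP] at h
        have e0 := congrArg (fun q => Polynomial.coeff q 0) h
        have e1 := congrArg (fun q => Polynomial.coeff q 1) h
        have e2 := congrArg (fun q => Polynomial.coeff q 2) h
        simp [Polynomial.coeff_X, Polynomial.coeff_C] at e0 e1 e2
        rw [hα] at e2
        rw [hβ] at e1
        rw [hγ] at e0
        rcases h0 with h0 | h0 | h0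
        · exact h0 (by exact_mod_cast e2)
        · exact h0 (by exact_mod_cast e1)
        · exact h0 (by exact_mod_cast e0)
      have h3 : Polynomial.aeval x P = 0 := by
        have ha : (α : ℂ) = a := by rw [hα]; norm_cast
        have hb : (β : ℂ) = b' := by rw [hβ]; norm_cast
        have hc : (γ : ℂ) = c := by rw [hγ]; norm_cast
        rw [hP]
        simp [ha, hb, hc, h1]
      have h4 := Polynomial.natDegree_le_natDegree (minpoly.degree_le_of_ne_zero ℚ x hP0 h3)
      refine h4.trans ?_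
      rw [hP]
      exact Polynomial.natDegree_quadratic_le
    omega

end Pool.Agent.Q280.MS
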