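import Pool.Agent.H294ZP.Main
import Pool.Agent.Q241.SX.C

/-!
# The modular invariant by lattice sums
-/

set_option autoImplicit false

open UpperHalfPlane ModularForm Complex EisensteinSeries

namespace Pool.Agent.Q280.MS

/-- The modular invariant, `j = 1728 g₂³ / (g₂³ - 27 g₃²)`. -/
noncomputable def J (τ : ℂ) : ℂ :=
  1728 * (60 * ∑' p : ℤ × ℤ, 1 / ((p.1 : ℂ) * τ + (p.2 : ℂ)) ^ 4) ^ 3 /
    ((60 * ∑' p : ℤ × ℤ, 1 / ((p.1 : ℂ) * τ + (p.2 : ℂ)) ^ 4) ^ 3 -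
      27 * (140 * ∑' p : ℤ × ℤ, 1 / ((p.1 : ℂ) * τ + (p.2 : ℂ)) ^ 6) ^ 2)

theorem sum_eq {k : ℕ} (hk : 3 ≤ k) (τ : ℍ) :
    ∑' p : ℤ × ℤ, 1 / ((p.1 : ℂ) * τ + (p.2 : ℂ)) ^ k = riemannZeta k * (2 * E hk τ) := by
  have h1 : (E hk τ : ℂ) = (1 / 2 : ℂ) * eisensteinSeries (N := 1) 0 k τ := by
    rw [show E hk τ = (1 / 2 : ℂ) • eisensteinSeriesSIF (N := 1) 0 k τ from rfl,
      eisensteinSeriesSIF_apply 0 k τ]
    rfl
  have h2 := tsum_eisSummand_eq_riemannZeta_mul_eisensteinSeries hk τ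
  rw [← (finTwoArrowEquiv ℤ).symm.tsum_eq] at h2
  rw [h1, show (2 : ℂ) * (1 / 2 * eisensteinSeries (N := 1) 0 k τ) =
    eisensteinSeries (N := 1) 0 k τ by ring, ← h2]
  refine tsum_congr fun p => ?_
  simp [eisSummand]

theorem zeta_six : riemannZeta 6 = (Real.pi : ℂ) ^ 6 / 945 := by
  have h := riemannZeta_two_mul_nat (k := 3) (by norm_num)
  have hb : bernoulli 6 = 1 / 42 := by decide +kernel
  have e : (2 * 3 : ℕ) = 6 := rfl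
  rw [e, hb] at h
  have h2 : ((2 : ℂ) * ((3 : ℕ) : ℂ)) = 6 := by norm_num
  rw [h2] at h
  rw [h]
  norm_num [Nat.factorial]
  ring

theorem J_eq (τ : ℍ) : J τ = H294ZP.jj τ := by
  have h4 := sum_eq (k := 4) (by norm_num) τ
  have h6 := sum_eq (k := 6) (by norm_num) τ
  have hz4 : riemannZeta (4 : ℕ) = (Real.pi : ℂ) ^ 4 / 90 := by
    exact_mod_cast riemannZeta_four
  have hz6 : riemannZeta (6 : ℕ) = (Real.pi : ℂ) ^ 6 / 945 := by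
    exact_mod_cast zeta_six
  rw [hz4] at h4
  rw [hz6] at h6
  have hd := discriminant_eq_E₄_cube_sub_E₆_sq τ
  have hd0 : discriminant τ ≠ 0 := discriminant_ne_zero τ
  unfold J H294ZP.jj
  rw [h4, h6, hd]
  have hpi : (Real.pi : ℂ) ≠ 0 := by exact_mod_cast Real.pi_ne_zero
  have h0 : (E₄ τ ^ 3 - E₆ τ ^ 2 : ℂ) ≠ 0 := by
    intro h
    rw [h] at hd
    exact hd0 (by rw [hd]; ring)
  have e1 : (60 * ((Real.pi : ℂ) ^ 4 / 90 * (2 * E₄ τ))) ^ 3 -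
      27 * (140 * ((Real.pi : ℂ) ^ 6 / 945 * (2 * E₆ τ))) ^ 2 =
      64 * (Real.pi : ℂ) ^ 12 / 27 * (E₄ τ ^ 3 - E₆ τ ^ 2) := by ring
  rw [e1]
  have h1 : 64 * (Real.pi : ℂ) ^ 12 / 27 ≠ 0 :=
    div_ne_zero (mul_ne_zero (by norm_num) (pow_ne_zero _ hpi)) (by norm_num)
  rw [div_eq_div_iff (mul_ne_zero h1 h0) (div_ne_zero h0 (by norm_num))]
  ring

theorem J_neg_conj (τ : ℂ) : J (-(starRingEnd ℂ) τ) = (starRingEnd ℂ) (J τ) := by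
  have key : ∀ k : ℕ, ∑' p : ℤ × ℤ, 1 / ((p.1 : ℂ) * (-(starRingEnd ℂ) τ) + (p.2 : ℂ)) ^ k =
      (starRingEnd ℂ) (∑' p : ℤ × ℤ, 1 / ((p.1 : ℂ) * τ + (p.2 : ℂ)) ^ k) := by
    intro k
    rw [← ((Equiv.neg ℤ).prodCongr (Equiv.refl ℤ)).tsum_eq
      (fun p : ℤ × ℤ => 1 / ((p.1 : ℂ) * τ + (p.2 : ℂ)) ^ k), Complex.conj_tsum]
    refine tsum_congr fun p => ?_
    simp
  unfold J
  rw [key, key]
  simp only [map_div₀, map_mul, map_pow, map_sub, map_ofNat]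

end Pool.Agent.Q280.MS
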