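import Pool.Agent.Q280.MS.Pts

/-!
# The system of the points with the values of `j`
-/

set_option autoImplicit false

open Matroid Set Q241.SX

namespace Pool.Agent.Q280.MS

/-- non-CM points of the upper half-plane -/
abbrev Pt : Type := {z : ℂ // 0 < z.im ∧ ¬ CM z}

/-- the equivalence of points -/
def ptSetoid : Setoid Pt where
  r a b := Equivalent a.1 b.1
  iseqv := ⟨fun a => equivalent_refl a.1, fun h => h.symm, fun h h' => h.trans h'⟩

/-- the reflection of points -/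
noncomputable def ptRefl (x : Pt) : Pt := ⟨refl x.1, by rw [refl_im]; exact x.2.1, fun h => x.2.2 h.of_refl⟩

theorem subset_cl_pair {X : Set ℂ} {a b : ℂ} (ha : a ∈ M.closure X) (hb : b ∈ M.closure X) :
    ({a, b} : Set ℂ) ⊆ M.closure X := insert_subset ha (singleton_subset_iff.mpr hb)

/-- points and values of `j` -/
@[reducible] noncomputable def sysJ : Sys where
  X := Pt
  r := ptSetoid
  S x := {x.1, J x.1}
  d := 1
  fin x := (finite_singleton _).insert _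
  cl {x y} h := by
    have h' : Equivalent x.1 y.1 := h
    exact subset_cl_pair (cl_mono (by simp) (h'.symm.mem_cl y.2.1))
      (cl_mono (by simp) (h'.symm.J_mem_cl y.2.1 x.2.1))
  σ := ptRefl
  σσ x := Subtype.ext (refl_refl x.1)
  σr h := Equivalent.refl_map h
  σS x := by
    refine subset_cl_pair (cl_neg (subset_cl _ ⟨x.1, by simp, rfl⟩)) ?_
    have : J (ptRefl x).1 = cj (J x.1) := J_refl x.1
    rw [this]
    exact subset_cl _ ⟨_, by simp, rfl⟩

theorem sysJ_sup (V : Finset sysJ.O) : ∃ x : sysJ.X, sysJ.q x ∉ V ∧ Sys.τ (sysJ.q x) = sysJ.q x ∧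
      M.eRk (sysJ.S x) ≤ sysJ.d := by
  obtain ⟨x, h1, h2, h3, h4, h5⟩ := exists_point (∑ v ∈ V, dg (Quotient.out v).1)
  refine ⟨⟨x, h1, h4⟩, fun hV => ?_, ?_, ?_⟩
  · have h6 : Equivalent (Quotient.out (sysJ.q ⟨x, h1, h4⟩)).1 x :=
      Quotient.exact (Quotient.out_eq (sysJ.q ⟨x, h1, h4⟩))
    have h7 := h6.dg_eq (Quotient.out (sysJ.q ⟨x, h1, h4⟩)).2.1 h1
    have h8 := Finset.single_le_sum (f := fun v => dg (Quotient.out v).1) (fun _ _ => Nat.zero_le _) hV
    omega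
  · show sysJ.q (ptRefl ⟨x, h1, h4⟩) = sysJ.q ⟨x, h1, h4⟩
    refine congrArg sysJ.q (Subtype.ext ?_)
    show refl x = x
    apply Complex.ext
    · simp [refl, h2]
    · simp [refl]
  · have h6 : sysJ.S ⟨x, h1, h4⟩ ⊆ M.closure {J x} :=
      subset_cl_pair (cl_alg h3) (subset_cl _ rfl)
    calc M.eRk (sysJ.S ⟨x, h1, h4⟩) ≤ M.eRk (M.closure {J x}) := M.eRk_mono h6
      _ = M.eRk {J x} := M.eRk_closure_eq _
      _ ≤ 1 := M.eRk_singleton_le _
      _ = ((sysJ.d : ℕ) : ℕ∞) := by show (1 : ℕ∞) = ((1 : ℕ) : ℕ∞); norm_num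

/-- the step -/
theorem sysJ_step {Y : Set ℂ} {x : sysJ.X} (h : x.1 ∈ M.closure Y ∨ J x.1 ∈ M.closure (insert x.1 Y)) :
    M.eRk (Y ∪ sysJ.S x) ≤ M.eRk Y + ((sysJ.d : ℕ) : ℕ∞) := by
  have hd : ((sysJ.d : ℕ) : ℕ∞) = 1 := by show ((1 : ℕ) : ℕ∞) = 1; norm_num
  rw [hd]
  have key : ∃ y, Y ∪ sysJ.S x ⊆ M.closure (insert y Y) := by
    rcases h with h | h
    · refine ⟨J x.1, union_subset ((subset_insert _ _).trans (subset_cl _)) ?_⟩
      exact subset_cl_pair (cl_mono (subset_insert _ _) h) (subset_cl _ (mem_insert _ _))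
    · refine ⟨x.1, union_subset ((subset_insert _ _).trans (subset_cl _)) ?_⟩
      exact subset_cl_pair (subset_cl _ (mem_insert _ _)) h
  obtain ⟨y, hy⟩ := key
  calc M.eRk (Y ∪ sysJ.S x) ≤ M.eRk (M.closure (insert y Y)) := M.eRk_mono hy
    _ = M.eRk (insert y Y) := M.eRk_closure_eq _
    _ ≤ M.eRk Y + 1 := M.eRk_insert_le_add_one _ _

end Pool.Agent.Q280.MS
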